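import Mathlib

set_option autoImplicit false

namespace Pool.Agent.Work.MP_66eb21_an

/-- The real vector space `E_{F,I}` with basis `x_{g,i}`, `g ∈ F`, `i ∈ I`. -/
abbrev E (F I : Type) : Type := (F × I) →₀ ℝ

/-- The basis vector `x_{g,i}`. -/
noncomputable def bv {F I : Type} (g : F) (i : I) : E F I := Finsupp.single (g, i) 1

/-- The action of `g ∈ F` on `E_{F,I}`: the linear map with `x_{f,i} ↦ x_{g f,i}`. -/
noncomputable def act {F I : Type} [Group F] (g : F) : E F I →ₗ[ℝ] E F I :=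
  Finsupp.lmapDomain ℝ ℝ (fun q : F × I => (g * q.1, q.2))

/-- A finitely presented action: a finite group `F`, a nonempty finite set `I`, a finite admissible
set `W ⊆ E_{F,I}` and a partial `F`-norm `p` on `W` (only the values of `p` on `W` matter). -/
structure FPAction where
  F : Type
  I : Type
  [group : Group F]
  [finF : Finite F]
  [finI : Finite I]
  [neI : Nonempty I]
  W : Set (E F I)
  p : E F I → ℝ
  W_finite : W.Finite
  zero_mem : 0 ∈ W
  neg_mem : ∀ w ∈ W, -w ∈ W
  act_mem : ∀ g : F, ∀ w ∈ W, act g w ∈ W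
  diff_mem : ∀ i j : I, i ≠ j → bv (1 : F) i - bv (1 : F) j ∈ W
  bv_mem : ∀ (g : F) (i : I), bv g i ∈ W
  p_nonneg : ∀ w ∈ W, 0 ≤ p w
  p_eq_zero : ∀ w ∈ W, (p w = 0 ↔ w = 0)
  p_smul : ∀ (a : ℝ) (w : E F I), w ∈ W → a • w ∈ W → p (a • w) = |a| * p w
  p_sum : ∀ (n : ℕ) (a : Fin n → ℝ) (v : Fin n → E F I), (∀ k, v k ∈ W) →
    (∑ k, a k • v k) ∈ W → p (∑ k, a k • v k) ≤ ∑ k, |a k| * p (v k)
  p_act : ∀ g : F, ∀ w ∈ W, p (act g w) = p w

attribute [instance] FPAction.group FPAction.finF FPAction.finI FPAction.neI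

/-- `x = ∑ b_k w_k` is a decomposition of `x` along `W` with cost `s = ∑ |b_k| p(w_k)`. -/
def FPAction.Dec (A : FPAction) (x : E A.F A.I) (s : ℝ) : Prop :=
  ∃ (n : ℕ) (b : Fin n → ℝ) (w : Fin n → E A.F A.I),
    (∀ k, w k ∈ A.W) ∧ x = ∑ k, b k • w k ∧ s = ∑ k, |b k| * A.p (w k)

/-- The maximal extension of the partial norm: the least cost of a decomposition. -/
noncomputable def FPAction.norm (A : FPAction) (x : E A.F A.I) : ℝ := sInf {s | A.Dec x s}

/-- The action is rational: `W` lies in the rational span of the basis and the partial norm takes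
rational values on `W`. -/
def FPAction.Rational (A : FPAction) : Prop :=
  (∀ w ∈ A.W, w ∈ Submodule.span ℚ (Set.range fun q : A.F × A.I => (bv q.1 q.2 : E A.F A.I))) ∧
    ∀ w ∈ A.W, ∃ r : ℚ, A.p w = (r : ℝ)

/-- An embedding `(φ, ψ)` of finitely presented actions: the linear map
`x_{g,i} ↦ x_{φ g, ψ i}` is isometric for the two maximal extensions. -/
structure Emb (A B : FPAction) where
  φ : A.F →* B.F
  ψ : A.I → B.I
  φ_inj : Function.Injective φ
  ψ_inj : Function.Injective ψ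
  isom : ∀ x : E A.F A.I, B.norm (Finsupp.mapDomain (Prod.map φ ψ) x) = A.norm x

end Pool.Agent.Work.MP_66eb21_an
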