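import Pool.Agent.Work.MP_66eb21_an.Defs

set_option autoImplicit false

namespace Pool.Agent.Work.MP_66eb21_an

lemma Emb.map_bv {A B : FPAction} (e : Emb A B) (g : A.F) (i : A.I) :
    Finsupp.mapDomain (Prod.map e.φ e.ψ) (bv g i : E A.F A.I) = bv (e.φ g) (e.ψ i) := by
  unfold bv
  rw [Finsupp.mapDomain_single]; rfl

/-! ### Properties of the maximal extension -/

section norm

variable (A : FPAction)

lemma act_bv {F I : Type} [Group F] (g f : F) (i : I) : act g (bv f i) = bv (g * f) i := by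
  simp [act, bv, Finsupp.mapDomain_single]

lemma Dec_nonneg {x : E A.F A.I} {s : ℝ} (h : A.Dec x s) : 0 ≤ s := by
  obtain ⟨n, b, w, hw, -, rfl⟩ := h
  exact Finset.sum_nonneg fun k _ => mul_nonneg (abs_nonneg _) (A.p_nonneg _ (hw k))

lemma Dec_zero : A.Dec 0 0 := ⟨0, Fin.elim0, Fin.elim0, fun k => k.elim0, by simp, by simp⟩

lemma Dec_mem {w : E A.F A.I} (hw : w ∈ A.W) : A.Dec w (A.p w) :=
  ⟨1, fun _ => 1, fun _ => w, fun _ => hw, by simp, by simp⟩

lemma Dec_add {x y : E A.F A.I} {s t : ℝ} (hx : A.Dec x s) (hy : A.Dec y t) :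
    A.Dec (x + y) (s + t) := by
  obtain ⟨n, b, w, hw, rfl, rfl⟩ := hx
  obtain ⟨m, c, v, hv, rfl, rfl⟩ := hy
  refine ⟨n + m, Fin.append b c, Fin.append w v, ?_, ?_, ?_⟩
  · intro k
    refine Fin.addCases (fun i => ?_) (fun i => ?_) k
    · rw [Fin.append_left]; exact hw i
    · rw [Fin.append_right]; exact hv i
  · rw [Fin.sum_univ_add]; simp
  · rw [Fin.sum_univ_add]; simp

lemma Dec_smul {x : E A.F A.I} {s : ℝ} (c : ℝ) (hx : A.Dec x s) : A.Dec (c • x) (|c| * s) := by
  obtain ⟨n, b, w, hw, rfl, rfl⟩ := hx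
  refine ⟨n, fun k => c * b k, w, hw, ?_, ?_⟩
  · rw [Finset.smul_sum]; simp only [smul_smul]
  · rw [Finset.mul_sum]; simp only [abs_mul, mul_assoc]

lemma Dec_act {x : E A.F A.I} {s : ℝ} (g : A.F) (hx : A.Dec x s) : A.Dec (act g x) s := by
  obtain ⟨n, b, w, hw, rfl, rfl⟩ := hx
  refine ⟨n, b, fun k => act g (w k), fun k => A.act_mem g _ (hw k), ?_, ?_⟩
  · rw [map_sum]; simp only [map_smul]
  · apply Finset.sum_congr rfl
    intro k _
    rw [A.p_act g _ (hw k)]

lemma exists_Dec (x : E A.F A.I) : ∃ s, A.Dec x s := by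
  induction x using Finsupp.induction_linear with
  | zero => exact ⟨0, Dec_zero A⟩
  | add x y hx hy =>
    obtain ⟨s, hs⟩ := hx
    obtain ⟨t, ht⟩ := hy
    exact ⟨s + t, Dec_add A hs ht⟩
  | single q c =>
    have h := Dec_smul A c (Dec_mem A (A.bv_mem q.1 q.2))
    have e : c • (bv q.1 q.2 : E A.F A.I) = Finsupp.single q c := by simp [bv]
    rw [e] at h
    exact ⟨_, h⟩

lemma bddBelow (x : E A.F A.I) : BddBelow {s | A.Dec x s} := ⟨0, fun _ hs => Dec_nonneg A hs⟩

lemma norm_le {x : E A.F A.I} {s : ℝ} (h : A.Dec x s) : A.norm x ≤ s := csInf_le (bddBelow A x) h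

lemma le_norm {x : E A.F A.I} {c : ℝ} (h : ∀ s, A.Dec x s → c ≤ s) : c ≤ A.norm x :=
  le_csInf (exists_Dec A x) h

lemma norm_add_le' (x y : E A.F A.I) : A.norm (x + y) ≤ A.norm x + A.norm y := by
  have h1 : ∀ s, A.Dec x s → A.norm (x + y) - A.norm y ≤ s := by
    intro s hs
    have h2 : A.norm (x + y) - s ≤ A.norm y := by
      apply le_norm
      intro t ht
      have := norm_le A (Dec_add A hs ht)
      linarith
    linarith
  have := le_norm A h1
  linarith

lemma norm_smul_le (c : ℝ) (x : E A.F A.I) (hc : 0 < c) : A.norm (c • x) ≤ c * A.norm x := by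
  have h : c⁻¹ * A.norm (c • x) ≤ A.norm x := by
    apply le_norm
    intro s hs
    have := norm_le A (Dec_smul A c hs)
    rw [abs_of_pos hc] at this
    rw [inv_mul_le_iff₀ hc]
    exact this
  rwa [inv_mul_le_iff₀ hc] at h

lemma norm_smul_pos (c : ℝ) (hc : 0 < c) (x : E A.F A.I) : A.norm (c • x) = c * A.norm x := by
  apply le_antisymm (norm_smul_le A c x hc)
  have h := norm_smul_le A c⁻¹ (c • x) (inv_pos.2 hc)
  rw [smul_smul, inv_mul_cancel₀ hc.ne', one_smul, ← div_eq_inv_mul, le_div_iff₀ hc] at h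
  linarith

lemma norm_act_le (g : A.F) (x : E A.F A.I) : A.norm (act g x) ≤ A.norm x :=
  le_norm A fun _ hs => norm_le A (Dec_act A g hs)

lemma norm_zero' : A.norm 0 = 0 :=
  le_antisymm (norm_le A (Dec_zero A)) (le_norm A fun _ hs => Dec_nonneg A hs)

lemma norm_nonneg' (x : E A.F A.I) : 0 ≤ A.norm x := le_norm A fun _ hs => Dec_nonneg A hs

lemma norm_neg' (x : E A.F A.I) : A.norm (-x) = A.norm x := by
  have h : ∀ y : E A.F A.I, A.norm (-y) ≤ A.norm y := by
    intro y
    apply le_norm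
    intro s hs
    have := norm_le A (Dec_smul A (-1) hs)
    simpa using this
  apply le_antisymm (h x)
  have := h (-x)
  rwa [neg_neg] at this

/-- Hahn-Banach: a linear functional dominated by the norm which norms a given vector of norm
one. -/
lemma exists_functional (x₀ : E A.F A.I) (h0 : A.norm x₀ = 1) :
    ∃ f : E A.F A.I →ₗ[ℝ] ℝ, (∀ x, f x ≤ A.norm x) ∧ f x₀ = 1 := by
  have hx₀ : x₀ ≠ 0 := by
    rintro rfl
    rw [norm_zero'] at h0
    exact zero_ne_one h0
  let f₀ : E A.F A.I →ₗ.[ℝ] ℝ := LinearPMap.mkSpanSingleton x₀ (1 : ℝ) hx₀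
  have hf₀ : ∀ x : f₀.domain, f₀ x ≤ A.norm x := by
    rintro ⟨x, hx⟩
    obtain ⟨c, rfl⟩ := Submodule.mem_span_singleton.1 hx
    have e : f₀ ⟨c • x₀, hx⟩ = c • (1 : ℝ) := LinearPMap.mkSpanSingleton'_apply _ _ _ _ _
    rw [e]
    show c • (1 : ℝ) ≤ A.norm (c • x₀)
    rw [smul_eq_mul, mul_one]
    rcases lt_trichotomy c 0 with hc | hc | hc
    · exact hc.le.trans (norm_nonneg' A _)
    · rw [hc, zero_smul, norm_zero']
    · rw [norm_smul_pos A c hc, h0, mul_one]
  obtain ⟨f, hf, hfN⟩ := exists_extension_of_le_sublinear f₀ A.norm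
    (fun c hc x => norm_smul_pos A c hc x) (norm_add_le' A) hf₀
  refine ⟨f, hfN, ?_⟩
  have hmem : x₀ ∈ f₀.domain := Submodule.mem_span_singleton_self x₀
  have h1 := hf ⟨x₀, hmem⟩
  have h2 : f₀ ⟨x₀, hmem⟩ = 1 := LinearPMap.mkSpanSingleton'_apply_self _ _ _ _
  rw [← h2]; exact h1

/-- A seminorm on the whole space which is at most `p` on `W` is at most the maximal extension. -/
lemma seminorm_le_norm (q : Seminorm ℝ (E A.F A.I)) (hq : ∀ w ∈ A.W, q w ≤ A.p w)
    (x : E A.F A.I) : q x ≤ A.norm x := by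
  apply le_norm
  rintro s ⟨n, b, w, hw, rfl, rfl⟩
  refine (Finset.le_sum_of_subadditive q (map_zero q).le (map_add_le_add q) _ _).trans ?_
  apply Finset.sum_le_sum
  intro k _
  rw [map_smul_eq_mul, Real.norm_eq_abs]
  exact mul_le_mul_of_nonneg_left (hq _ (hw k)) (abs_nonneg _)

end norm

/-! ### The construction -/

section construction

variable (H : Type) [Group H]

/-- the vectors which every admissible set must contain -/
def S0 : Set (E H (Fin 2)) :=
  {0} ∪ Set.range (fun q : H × Fin 2 => (bv q.1 q.2 : E H (Fin 2)))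
    ∪ Set.range (fun q : H × Fin 2 => -(bv q.1 q.2 : E H (Fin 2)))
    ∪ Set.range (fun h : H => (bv h 0 - bv h 1 : E H (Fin 2)))
    ∪ Set.range (fun h : H => (bv h 1 - bv h 0 : E H (Fin 2)))

variable {H}

lemma S0_cases {P : E H (Fin 2) → Prop} (h0 : P 0) (h1 : ∀ h i, P (bv h i))
    (h2 : ∀ h i, P (-bv h i)) (h3 : ∀ h, P (bv h 0 - bv h 1)) (h4 : ∀ h, P (bv h 1 - bv h 0)) :
    ∀ w ∈ S0 H, P w := by
  rintro w ((((hw | ⟨q, rfl⟩) | ⟨q, rfl⟩) | ⟨h, rfl⟩) | ⟨h, rfl⟩)
  · rw [Set.mem_singleton_iff] at hw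
    rw [hw]; exact h0
  · exact h1 _ _
  · exact h2 _ _
  · exact h3 _
  · exact h4 _

lemma S0_zero : (0 : E H (Fin 2)) ∈ S0 H := Or.inl (Or.inl (Or.inl (Or.inl rfl)))
lemma S0_bv (h : H) (i : Fin 2) : (bv h i : E H (Fin 2)) ∈ S0 H :=
  Or.inl (Or.inl (Or.inl (Or.inr ⟨(h, i), rfl⟩)))
lemma S0_neg_bv (h : H) (i : Fin 2) : -(bv h i : E H (Fin 2)) ∈ S0 H :=
  Or.inl (Or.inl (Or.inr ⟨(h, i), rfl⟩))
lemma S0_d01 (h : H) : (bv h 0 - bv h 1 : E H (Fin 2)) ∈ S0 H := Or.inl (Or.inr ⟨h, rfl⟩)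
lemma S0_d10 (h : H) : (bv h 1 - bv h 0 : E H (Fin 2)) ∈ S0 H := Or.inr ⟨h, rfl⟩

lemma S0_neg : ∀ w ∈ S0 H, -w ∈ S0 H := by
  apply S0_cases
  · rw [neg_zero]; exact S0_zero
  · exact S0_neg_bv
  · intro h i; rw [neg_neg]; exact S0_bv h i
  · intro h; rw [neg_sub]; exact S0_d10 h
  · intro h; rw [neg_sub]; exact S0_d01 h

lemma S0_act (g : H) : ∀ w ∈ S0 H, act g w ∈ S0 H := by
  apply S0_cases
  · rw [map_zero]; exact S0_zero
  · intro h i; rw [act_bv]; exact S0_bv _ i
  · intro h i; rw [map_neg, act_bv]; exact S0_neg_bv _ i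
  · intro h; rw [map_sub, act_bv, act_bv]; exact S0_d01 _
  · intro h; rw [map_sub, act_bv, act_bv]; exact S0_d10 _

lemma S0_diff (i j : Fin 2) (hij : i ≠ j) : (bv (1 : H) i - bv (1 : H) j) ∈ S0 H := by
  fin_cases i <;> fin_cases j
  · exact absurd rfl hij
  · exact S0_d01 1
  · exact S0_d10 1
  · exact absurd rfl hij

lemma S0_finite [Finite H] : (S0 H).Finite := by
  unfold S0
  exact ((((Set.finite_singleton _).union (Set.finite_range _)).union (Set.finite_range _)).union
    (Set.finite_range _)).union (Set.finite_range _)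

/-- the rational span -/
noncomputable abbrev QS (H : Type) : Submodule ℚ (E H (Fin 2)) :=
  Submodule.span ℚ (Set.range fun q : H × Fin 2 => (bv q.1 q.2 : E H (Fin 2)))

lemma QS_bv (h : H) (i : Fin 2) : (bv h i : E H (Fin 2)) ∈ QS H :=
  Submodule.subset_span ⟨(h, i), rfl⟩

lemma S0_rational : ∀ w ∈ S0 H, w ∈ QS H := by
  apply S0_cases
  · exact Submodule.zero_mem _
  · exact QS_bv
  · intro h i; exact Submodule.neg_mem _ (QS_bv h i)
  · intro h; exact Submodule.sub_mem _ (QS_bv h 0) (QS_bv h 1)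
  · intro h; exact Submodule.sub_mem _ (QS_bv h 1) (QS_bv h 0)

lemma act_act {F I : Type} [Group F] (g h : F) (x : E F I) : act g (act h x) = act (g * h) x := by
  induction x using Finsupp.induction_linear with
  | zero => simp
  | add x y hx hy => simp only [map_add, hx, hy]
  | single q c =>
    have e : Finsupp.single q c = c • (bv q.1 q.2 : E F I) := by simp [bv]
    rw [e]
    simp only [map_smul, act_bv, mul_assoc]

/-- The functional `f_k`: value `1` on every `x_{h,0}`, value `-1` on `x_{k,1}` and value `1` on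
`x_{h,1}`, `h ≠ k`. -/
noncomputable def fk [DecidableEq H] (k : H) : E H (Fin 2) →ₗ[ℝ] ℝ :=
  Finsupp.linearCombination ℝ
    (fun q : H × Fin 2 => if q.2 = 0 then (1 : ℝ) else if q.1 = k then -1 else 1)

lemma fk_bv [DecidableEq H] (k h : H) (i : Fin 2) :
    fk k (bv h i) = if i = 0 then (1 : ℝ) else if h = k then -1 else 1 := by
  simp [fk, bv, Finsupp.linearCombination_single]

lemma fk_bv0 [DecidableEq H] (k h : H) : fk k (bv h 0) = 1 := by simp [fk_bv]

lemma fk_bv1 [DecidableEq H] (k h : H) : fk k (bv h 1) = if h = k then (-1 : ℝ) else 1 := by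
  simp [fk_bv]

lemma fk_act [DecidableEq H] (k g : H) (x : E H (Fin 2)) : fk k (act g x) = fk (g⁻¹ * k) x := by
  induction x using Finsupp.induction_linear with
  | zero => simp
  | add x y hx hy => simp only [map_add, hx, hy]
  | single q c =>
    have e : Finsupp.single q c = c • (bv q.1 q.2 : E H (Fin 2)) := by simp [bv]
    rw [e]
    simp only [map_smul, act_bv, fk_bv, eq_inv_mul_iff_mul_eq]

variable [Fintype H] [DecidableEq H]

/-- the seminorm `max_k |f_k|` -/
noncomputable def pB (H : Type) [Group H] [Fintype H] [DecidableEq H] :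
    Seminorm ℝ (E H (Fin 2)) :=
  Finset.univ.sup fun k : H => (normSeminorm ℝ ℝ).comp (fk k)

lemma le_pB (k : H) (x : E H (Fin 2)) : |fk k x| ≤ pB H x :=
  Seminorm.le_finset_sup_apply (p := fun k : H => (normSeminorm ℝ ℝ).comp (fk k))
    (Finset.mem_univ k)

lemma pB_le {x : E H (Fin 2)} {c : ℝ} (hc : 0 ≤ c) (h : ∀ k, |fk k x| ≤ c) : pB H x ≤ c :=
  Seminorm.finset_sup_apply_le (p := fun k : H => (normSeminorm ℝ ℝ).comp (fk k)) hc
    (fun k _ => h k)

lemma pB_act (g : H) (x : E H (Fin 2)) : pB H (act g x) = pB H x := by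
  apply le_antisymm
  · apply pB_le (apply_nonneg _ _)
    intro k
    rw [fk_act]; exact le_pB _ _
  · apply pB_le (apply_nonneg _ _)
    intro k
    have h := le_pB (g * k) (act g x)
    rw [fk_act, inv_mul_cancel_left] at h
    exact h

lemma fk_rational (k : H) {x : E H (Fin 2)} (hx : x ∈ QS H) : ∃ r : ℚ, fk k x = (r : ℝ) := by
  induction hx using Submodule.span_induction with
  | mem x hx =>
    obtain ⟨q, rfl⟩ := hx
    simp only [fk_bv]
    split_ifs
    · exact ⟨1, by norm_num⟩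
    · exact ⟨-1, by norm_num⟩
    · exact ⟨1, by norm_num⟩
  | zero => exact ⟨0, by simp⟩
  | add x y _ _ hx hy =>
    obtain ⟨r, hr⟩ := hx
    obtain ⟨s, hs⟩ := hy
    exact ⟨r + s, by rw [map_add, hr, hs]; push_cast; rfl⟩
  | smul c x _ hx =>
    obtain ⟨r, hr⟩ := hx
    refine ⟨c * r, ?_⟩
    have : c • x = (c : ℝ) • x := (Rat.cast_smul_eq_qsmul ℝ c x).symm
    rw [this, map_smul, hr, smul_eq_mul]
    push_cast; rfl

lemma pB_rational {x : E H (Fin 2)} (hx : x ∈ QS H) : ∃ r : ℚ, pB H x = (r : ℝ) := by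
  obtain ⟨k, -, hk⟩ := Finset.exists_max_image (Finset.univ : Finset H) (fun k => |fk k x|)
    ⟨1, Finset.mem_univ _⟩
  have h1 : pB H x = |fk k x| :=
    le_antisymm (pB_le (abs_nonneg _) (fun k' => hk k' (Finset.mem_univ _))) (le_pB k x)
  obtain ⟨r, hr⟩ := fk_rational k hx
  refine ⟨|r|, ?_⟩
  rw [h1, hr]; push_cast; rfl

/-- The special vectors of `B`, `s = ±1`. -/
noncomputable def vv (H : Type) [Group H] [Fintype H] (s : ℝ) : E H (Fin 2) :=
  bv 1 0 - (1 / (2 * (Fintype.card H : ℝ))) • ∑ h : H, bv h 0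
    + (s / 2) • (∑ h : H, bv h 1
      - (((Fintype.card H : ℝ) - 2) / (Fintype.card H : ℝ)) • ∑ h : H, bv h 0)

omit [DecidableEq H] in
lemma functional_vv (L : E H (Fin 2) →ₗ[ℝ] ℝ) (s : ℝ) :
    L (vv H s) = L (bv 1 0) - (1 / (2 * (Fintype.card H : ℝ))) * ∑ h : H, L (bv h 0)
      + (s / 2) * (∑ h : H, L (bv h 1)
        - (((Fintype.card H : ℝ) - 2) / (Fintype.card H : ℝ)) * ∑ h : H, L (bv h 0)) := by
  unfold vv
  simp only [map_add, map_sub, map_smul, map_sum, smul_eq_mul]

lemma sum_fk_bv1 (k : H) : ∑ h : H, fk k (bv h 1) = (Fintype.card H : ℝ) - 2 := by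
  have e : ∀ h : H, fk k (bv h 1) = 1 - (if h = k then (2 : ℝ) else 0) := by
    intro h
    rw [fk_bv1]
    split_ifs <;> norm_num
  simp only [e, Finset.sum_sub_distrib, Finset.sum_const, Finset.card_univ, nsmul_eq_mul, mul_one,
    Finset.sum_ite_eq', Finset.mem_univ, if_true]

lemma card_pos' : (0 : ℝ) < (Fintype.card H : ℝ) := Nat.cast_pos.2 Fintype.card_pos

lemma fk_vv (k : H) (s : ℝ) : fk k (vv H s) = 1 / 2 := by
  have hn := card_pos' (H := H)
  rw [functional_vv, sum_fk_bv1]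
  simp only [fk_bv0, Finset.sum_const, Finset.card_univ, nsmul_eq_mul, mul_one]
  field_simp
  ring

omit [DecidableEq H] in
lemma vv_rational (s : ℚ) : vv H (s : ℝ) ∈ QS H := by
  have key : ∀ (c : ℚ) (x : E H (Fin 2)), x ∈ QS H → ((c : ℝ)) • x ∈ QS H := by
    intro c x hx
    rw [Rat.cast_smul_eq_qsmul ℝ c x]
    exact Submodule.smul_mem _ _ hx
  have h0 : (∑ h : H, (bv h 0 : E H (Fin 2))) ∈ QS H :=
    Submodule.sum_mem _ fun h _ => QS_bv h 0
  have h1 : (∑ h : H, (bv h 1 : E H (Fin 2))) ∈ QS H :=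
    Submodule.sum_mem _ fun h _ => QS_bv h 1
  unfold vv
  have e1 : (1 / (2 * (Fintype.card H : ℝ))) = ((1 / (2 * (Fintype.card H : ℚ)) : ℚ) : ℝ) := by
    push_cast; rfl
  have e2 : ((s : ℝ) / 2) = ((s / 2 : ℚ) : ℝ) := by push_cast; rfl
  have e3 : (((Fintype.card H : ℝ) - 2) / (Fintype.card H : ℝ))
      = (((((Fintype.card H : ℚ) - 2) / (Fintype.card H : ℚ)) : ℚ) : ℝ) := by push_cast; rfl
  rw [e1, e2, e3]
  exact Submodule.add_mem _ (Submodule.sub_mem _ (QS_bv 1 0) (key _ _ h0))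
    (key _ _ (Submodule.sub_mem _ h1 (key _ _ h0)))

/-- the admissible set of `B` -/
def WB (H : Type) [Group H] [Fintype H] : Set (E H (Fin 2)) :=
  S0 H ∪ Set.range (fun q : H × Bool => act q.1 (vv H (if q.2 then 1 else -1)))
    ∪ Set.range (fun q : H × Bool => -act q.1 (vv H (if q.2 then 1 else -1)))

omit [DecidableEq H] in
lemma WB_cases {P : E H (Fin 2) → Prop} (h0 : ∀ w ∈ S0 H, P w)
    (h1 : ∀ (g : H) (b : Bool), P (act g (vv H (if b then 1 else -1))))
    (h2 : ∀ (g : H) (b : Bool), P (-act g (vv H (if b then 1 else -1)))) :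
    ∀ w ∈ WB H, P w := by
  rintro w ((hw | ⟨q, rfl⟩) | ⟨q, rfl⟩)
  · exact h0 w hw
  · exact h1 _ _
  · exact h2 _ _

omit [DecidableEq H] in
lemma WB_S0 {w : E H (Fin 2)} (hw : w ∈ S0 H) : w ∈ WB H := Or.inl (Or.inl hw)

omit [DecidableEq H] in
lemma WB_v (g : H) (b : Bool) : act g (vv H (if b then 1 else -1)) ∈ WB H :=
  Or.inl (Or.inr ⟨(g, b), rfl⟩)

omit [DecidableEq H] in
lemma WB_nv (g : H) (b : Bool) : -act g (vv H (if b then 1 else -1)) ∈ WB H :=
  Or.inr ⟨(g, b), rfl⟩

lemma pB_bv (h : H) (i : Fin 2) : pB H (bv h i) = 1 := by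
  apply le_antisymm
  · apply pB_le zero_le_one
    intro k
    rw [fk_bv]
    split_ifs <;> norm_num
  · have := le_pB h (bv h i)
    rw [fk_bv] at this
    split_ifs at this <;> simpa using this

lemma pB_S0_ne : ∀ w ∈ S0 H, w ≠ 0 → pB H w ≠ 0 := by
  apply S0_cases
  · intro h; exact absurd rfl h
  · intro h i _; rw [pB_bv]; norm_num
  · intro h i _; rw [map_neg_eq_map, pB_bv]; norm_num
  · intro h _ h0
    have := le_pB h (bv h 0 - bv h 1)
    rw [h0, map_sub, fk_bv0, fk_bv1, if_pos rfl] at this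
    norm_num at this
  · intro h _ h0
    have := le_pB h (bv h 1 - bv h 0)
    rw [h0, map_sub, fk_bv0, fk_bv1, if_pos rfl] at this
    norm_num at this

lemma pB_vv (s : ℝ) : pB H (vv H s) = 1 / 2 := by
  apply le_antisymm
  · apply pB_le (by norm_num)
    intro k
    rw [fk_vv]; norm_num
  · have := le_pB 1 (vv H s)
    rw [fk_vv] at this
    refine le_trans ?_ this
    norm_num

/-- build a finitely presented action from an invariant seminorm -/
noncomputable def build (W : Set (E H (Fin 2))) (p : Seminorm ℝ (E H (Fin 2))) (hfin : W.Finite)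
    (hS : S0 H ⊆ W) (hneg : ∀ w ∈ W, -w ∈ W) (hact : ∀ g : H, ∀ w ∈ W, act g w ∈ W)
    (hne : ∀ w ∈ W, w ≠ 0 → p w ≠ 0) (hinv : ∀ (g : H) (x : E H (Fin 2)), p (act g x) = p x) :
    FPAction where
  F := H
  I := Fin 2
  W := W
  p := p
  W_finite := hfin
  zero_mem := hS S0_zero
  neg_mem := hneg
  act_mem := hact
  diff_mem := fun i j hij => hS (S0_diff i j hij)
  bv_mem := fun g i => hS (S0_bv g i)
  p_nonneg := fun w _ => apply_nonneg p w
  p_eq_zero := fun w hw => ⟨fun h => by_contra fun h' => hne w hw h' h, fun h => by rw [h, map_zero]⟩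
  p_smul := fun a w _ _ => by rw [map_smul_eq_mul, Real.norm_eq_abs]
  p_sum := fun n a v _ _ => by
    refine (Finset.le_sum_of_subadditive p (map_zero p).le (map_add_le_add p) _ _).trans ?_
    apply Finset.sum_le_sum
    intro k _
    rw [map_smul_eq_mul, Real.norm_eq_abs]
  p_act := fun g w _ => hinv g w

/-- The actions `B` (for `H` of order three) and `C` (for `H` of order two). -/
noncomputable def objB (H : Type) [Group H] [Fintype H] [DecidableEq H] : FPAction :=
  build (H := H) (WB H) (pB H)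
    (by
      unfold WB
      exact (S0_finite.union (Set.finite_range _)).union (Set.finite_range _))
    (fun w hw => WB_S0 hw)
    (by
      apply WB_cases
      · intro w hw; exact WB_S0 (S0_neg w hw)
      · exact WB_nv
      · intro g b; rw [neg_neg]; exact WB_v g b)
    (by
      intro g
      apply WB_cases
      · intro w hw; exact WB_S0 (S0_act g w hw)
      · intro h b; rw [act_act]; exact WB_v _ b
      · intro h b; rw [map_neg, act_act]; exact WB_nv _ b)
    (by
      apply WB_cases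
      · exact pB_S0_ne
      · intro g b _; rw [pB_act, pB_vv]; norm_num
      · intro g b _; rw [map_neg_eq_map, pB_act, pB_vv]; norm_num)
    pB_act

lemma objB_rational : (objB H).Rational := by
  have h1 : ∀ w ∈ WB H, w ∈ QS H := by
    have key : ∀ (g : H) (x : E H (Fin 2)), x ∈ QS H → act g x ∈ QS H := by
      intro g x hx
      induction hx using Submodule.span_induction with
      | mem x hx =>
        obtain ⟨q, rfl⟩ := hx
        simp only [act_bv]
        exact QS_bv _ _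
      | zero => rw [map_zero]; exact Submodule.zero_mem _
      | add x y _ _ hx hy => rw [map_add]; exact Submodule.add_mem _ hx hy
      | smul c x _ hx =>
        rw [← Rat.cast_smul_eq_qsmul ℝ c x, map_smul, Rat.cast_smul_eq_qsmul ℝ c]
        exact Submodule.smul_mem _ _ hx
    have hv : ∀ b : Bool, vv H (if b then 1 else -1) ∈ QS H := by
      intro b
      cases b
      · have := vv_rational (H := H) (-1)
        simpa using this
      · have := vv_rational (H := H) 1
        simpa using this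
    apply WB_cases
    · exact S0_rational
    · intro g b; exact key g _ (hv b)
    · intro g b; exact Submodule.neg_mem _ (key g _ (hv b))
  exact ⟨h1, fun w hw => pB_rational (h1 w hw)⟩

/-- Forcing: a functional dominated by the norm of `B` with value `1` at `x_{e,0}` has value `1` at
every `x_{h,0}`, and its values at the `x_{h,1}` add up to `|H| - 2`. -/
lemma force (L : E H (Fin 2) →ₗ[ℝ] ℝ) (hL : ∀ x : E H (Fin 2), L x ≤ (objB H).norm x)
    (h1 : L (bv 1 0) = 1) :
    (∀ h : H, L (bv h 0) = 1) ∧ ∑ h : H, L (bv h 1) = (Fintype.card H : ℝ) - 2 := by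
  have hn := card_pos' (H := H)
  have hle : ∀ h : H, L (bv h 0) ≤ 1 := by
    intro h
    refine (hL _).trans ?_
    have := norm_le (objB H) (Dec_mem (objB H) (w := (bv h 0 : E H (Fin 2))) (WB_S0 (S0_bv h 0)))
    exact this.trans (pB_bv h 0).le
  have hv : ∀ b : Bool, L (vv H (if b then 1 else -1)) ≤ 1 / 2 := by
    intro b
    refine (hL _).trans ?_
    have hmem : vv H (if b then 1 else -1) ∈ WB H := by
      have e : act (1 : H) (vv H (if b then 1 else -1)) = vv H (if b then 1 else -1) := by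
        have : (fun q : H × Fin 2 => ((1 : H) * q.1, q.2)) = id := by
          funext q; simp
        unfold act
        rw [this, Finsupp.lmapDomain_id]; rfl
      rw [← e]
      exact WB_v 1 b
    have := norm_le (objB H) (Dec_mem (objB H) (w := vv H (if b then 1 else -1)) hmem)
    exact this.trans (pB_vv _).le
  have hp := hv true
  have hm := hv false
  rw [functional_vv, h1] at hp hm
  simp only [if_true, Bool.false_eq_true, if_false] at hp hm
  set n : ℝ := (Fintype.card H : ℝ) with hndef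
  set T₀ := ∑ h : H, L (bv h 0) with hS0
  set T₁ := ∑ h : H, L (bv h 1) with hS1
  have hsumle : T₀ ≤ n := by
    have : T₀ ≤ ∑ _h : H, (1 : ℝ) := Finset.sum_le_sum fun h _ => hle h
    simpa [hndef] using this
  have hsumge : n ≤ T₀ := by
    have h3 : 2 - 2 * (1 / (2 * n) * T₀) ≤ 1 := by linarith
    have h4 : 2 * (1 / (2 * n) * T₀) = T₀ / n := by field_simp
    rw [h4] at h3
    have h5 : 1 ≤ T₀ / n := by linarith
    rwa [le_div_iff₀ hn, one_mul] at h5
  have hsum : T₀ = n := le_antisymm hsumle hsumge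
  have hall : ∀ h : H, L (bv h 0) = 1 := by
    have h6 : ∑ h : H, (1 - L (bv h 0)) = 0 := by
      rw [Finset.sum_sub_distrib, ← hS0, hsum]
      simp [hndef]
    intro h
    have h7 := (Finset.sum_eq_zero_iff_of_nonneg (fun h _ => sub_nonneg.2 (hle h))).1 h6 h
      (Finset.mem_univ h)
    linarith
  refine ⟨hall, ?_⟩
  rw [hsum] at hp hm
  have h8 : 1 / (2 * n) * n = 1 / 2 := by field_simp
  have h9 : (n - 2) / n * n = n - 2 := by field_simp
  rw [h8, h9] at hp hm
  linarith

end construction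

/-! ### The action `A` -/

noncomputable def co (i : Fin 2) : E Unit (Fin 2) →ₗ[ℝ] ℝ := Finsupp.lapply ((), i)

/-- the `ℓ₁` norm on the plane -/
noncomputable def pA : Seminorm ℝ (E Unit (Fin 2)) :=
  (normSeminorm ℝ ℝ).comp (co 0) + (normSeminorm ℝ ℝ).comp (co 1)

lemma pA_apply (x : E Unit (Fin 2)) : pA x = |x ((), 0)| + |x ((), 1)| := rfl

lemma pA_bv (u : Unit) (i : Fin 2) : pA (bv u i) = 1 := by
  rw [pA_apply]
  fin_cases i <;> simp [bv]

lemma act_unit (g : Unit) (x : E Unit (Fin 2)) : act g x = x := by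
  have : (fun q : Unit × Fin 2 => (g * q.1, q.2)) = id := by
    funext q; rfl
  unfold act
  rw [this, Finsupp.lmapDomain_id]; rfl

lemma pA_ne (x : E Unit (Fin 2)) (hx : x ≠ 0) : pA x ≠ 0 := by
  intro h
  rw [pA_apply] at h
  apply hx
  have h0 := abs_nonneg (x ((), 0))
  have h1 := abs_nonneg (x ((), 1))
  have e0 : x ((), 0) = 0 := abs_eq_zero.1 (by linarith)
  have e1 : x ((), 1) = 0 := abs_eq_zero.1 (by linarith)
  ext ⟨u, i⟩
  fin_cases i
  · exact e0
  · exact e1

noncomputable def objA : FPAction :=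
  build (H := Unit) (S0 Unit) pA S0_finite (fun _ h => h) S0_neg S0_act
    (fun w _ hw => pA_ne w hw) (fun g x => by rw [act_unit])

lemma coord_rational {x : E Unit (Fin 2)} (hx : x ∈ QS Unit) (q : Unit × Fin 2) :
    ∃ r : ℚ, x q = (r : ℝ) := by
  induction hx using Submodule.span_induction with
  | mem x hx =>
    obtain ⟨q', rfl⟩ := hx
    simp only [bv, Finsupp.single_apply]
    split_ifs
    · exact ⟨1, by norm_num⟩
    · exact ⟨0, by norm_num⟩
  | zero => exact ⟨0, by simp⟩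
  | add x y _ _ hx hy =>
    obtain ⟨r, hr⟩ := hx
    obtain ⟨s, hs⟩ := hy
    exact ⟨r + s, by rw [Finsupp.add_apply, hr, hs]; push_cast; rfl⟩
  | smul c x _ hx =>
    obtain ⟨r, hr⟩ := hx
    refine ⟨c * r, ?_⟩
    rw [← Rat.cast_smul_eq_qsmul ℝ c x, Finsupp.smul_apply, hr, smul_eq_mul]
    push_cast; rfl

lemma objA_rational : objA.Rational := by
  have key : ∀ w : E Unit (Fin 2), w ∈ S0 Unit → ∃ r : ℚ, pA w = (r : ℝ) := by
    intro w hw
    obtain ⟨r, hr⟩ := coord_rational (S0_rational w hw) ((), 0)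
    obtain ⟨s, hs⟩ := coord_rational (S0_rational w hw) ((), 1)
    refine ⟨|r| + |s|, ?_⟩
    rw [pA_apply, hr, hs]
    push_cast; rfl
  exact ⟨S0_rational, key⟩

lemma expand (x : E Unit (Fin 2)) :
    x = x ((), 0) • (bv () 0 : E Unit (Fin 2)) + x ((), 1) • (bv () 1 : E Unit (Fin 2)) := by
  ext ⟨u, i⟩
  fin_cases i <;> simp [bv]

lemma normA (x : E Unit (Fin 2)) : objA.norm x = |x ((), 0)| + |x ((), 1)| := by
  apply le_antisymm
  · have h0 := Dec_smul objA (x ((), 0)) (Dec_mem objA (w := (bv () 0 : E Unit (Fin 2)))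
      (S0_bv () 0))
    have h1 := Dec_smul objA (x ((), 1)) (Dec_mem objA (w := (bv () 1 : E Unit (Fin 2)))
      (S0_bv () 1))
    have h2 := norm_le objA (Dec_add objA h0 h1)
    have e0 : objA.p (bv () 0 : E Unit (Fin 2)) = 1 := pA_bv () 0
    have e1 : objA.p (bv () 1 : E Unit (Fin 2)) = 1 := pA_bv () 1
    rw [e0, e1, mul_one, mul_one] at h2
    have e2 : objA.norm x = objA.norm (x ((), 0) • (bv () 0 : E Unit (Fin 2))
        + x ((), 1) • (bv () 1 : E Unit (Fin 2)) : E Unit (Fin 2)) := congrArg _ (expand x)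
    rw [e2]
    exact h2
  · exact seminorm_le_norm objA pA (fun _ _ => le_rfl) x

section emb

variable (H : Type) [Group H] [Fintype H] [DecidableEq H]

lemma normB (hcard : ∃ k : H, k ≠ 1) (a b : ℝ) :
    (objB H).norm (a • (bv 1 0 : E H (Fin 2)) + b • (bv 1 1 : E H (Fin 2))) = |a| + |b| := by
  apply le_antisymm
  · have h0 := Dec_smul (objB H) a (Dec_mem (objB H) (w := (bv 1 0 : E H (Fin 2)))
      (WB_S0 (S0_bv 1 0)))
    have h1 := Dec_smul (objB H) b (Dec_mem (objB H) (w := (bv 1 1 : E H (Fin 2)))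
      (WB_S0 (S0_bv 1 1)))
    have h2 := norm_le (objB H) (Dec_add (objB H) h0 h1)
    have e0 : (objB H).p (bv 1 0 : E H (Fin 2)) = 1 := pB_bv 1 0
    have e1 : (objB H).p (bv 1 1 : E H (Fin 2)) = 1 := pB_bv 1 1
    rw [e0, e1, mul_one, mul_one] at h2
    exact h2
  · suffices hkey : |a| + |b| ≤ pB H (a • (bv 1 0 : E H (Fin 2)) + b • (bv 1 1 : E H (Fin 2))) from
      le_trans hkey (seminorm_le_norm (objB H) (pB H) (fun _ _ => le_rfl) _)
    obtain ⟨k, hk⟩ := hcard
    have h1 := le_pB (1 : H) (a • (bv 1 0 : E H (Fin 2)) + b • (bv 1 1 : E H (Fin 2)))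
    have h2 := le_pB k (a • (bv 1 0 : E H (Fin 2)) + b • (bv 1 1 : E H (Fin 2)))
    rw [map_add, map_smul, map_smul, fk_bv0, fk_bv1, if_pos rfl] at h1
    rw [map_add, map_smul, map_smul, fk_bv0, fk_bv1, if_neg (Ne.symm hk)] at h2
    simp only [smul_eq_mul, mul_one, mul_neg] at h1 h2
    rcases abs_cases a with ⟨ha, -⟩ | ⟨ha, -⟩ <;> rcases abs_cases b with ⟨hb, -⟩ | ⟨hb, -⟩ <;>
      rw [ha, hb]
    · exact (le_abs_self _).trans h2
    · have := (le_abs_self _).trans h1
      linarith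
    · have := (neg_le_abs _).trans h1
      linarith
    · have := (neg_le_abs _).trans h2
      linarith

lemma isomAB (hcard : ∃ k : H, k ≠ 1) (x : E Unit (Fin 2)) :
    (objB H).norm (Finsupp.mapDomain (Prod.map (1 : Unit →* H) id) x : E H (Fin 2))
      = |x ((), 0)| + |x ((), 1)| := by
  have e : Finsupp.mapDomain (Prod.map (1 : Unit →* H) id) (x : E Unit (Fin 2))
      = x ((), 0) • (bv 1 0 : E H (Fin 2)) + x ((), 1) • (bv 1 1 : E H (Fin 2)) := by
    conv_lhs => rw [expand x]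
    rw [Finsupp.mapDomain_add, Finsupp.mapDomain_smul, Finsupp.mapDomain_smul]
    simp [bv, Finsupp.mapDomain_single]
  rw [e]
  exact normB H hcard (x ((), 0)) (x ((), 1))

/-- the embedding `A → B` -/
noncomputable def embAB (hcard : ∃ k : H, k ≠ 1) : Emb objA (objB H) where
  φ := (1 : Unit →* H)
  ψ := (id : Fin 2 → Fin 2)
  φ_inj := fun _ _ _ => rfl
  ψ_inj := Function.injective_id
  isom := fun x => (isomAB H hcard x).trans (normA x).symm

open Classical in
/-- Averaging over the set where the functional takes the value one. -/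
lemma averaging (D : FPAction) [Fintype D.F] (e : Emb (objB H) D) (f : E D.F D.I →ₗ[ℝ] ℝ)
    (hf : ∀ x, f x ≤ D.norm x) (j₀ j₁ : D.I) (h0 : e.ψ (0 : Fin 2) = j₀)
    (h1 : e.ψ (1 : Fin 2) = j₁) :
    (Fintype.card H : ℝ) * ∑ g ∈ Finset.univ.filter (fun g : D.F => f (bv g j₀) = 1), f (bv g j₁)
      = ((Fintype.card H : ℝ) - 2)
        * ((Finset.univ.filter (fun g : D.F => f (bv g j₀) = 1)).card : ℝ) := by
  set S := Finset.univ.filter (fun g : D.F => f (bv g j₀) = 1) with hS
  let φ : H →* D.F := e.φ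
  have hforce : ∀ g ∈ S, (∀ h : H, f (bv (g * φ h) j₀) = 1) ∧
      ∑ h : H, f (bv (g * φ h) j₁) = (Fintype.card H : ℝ) - 2 := by
    intro g hg
    have hg1 : f (bv g j₀) = 1 := (Finset.mem_filter.1 hg).2
    let L : E H (Fin 2) →ₗ[ℝ] ℝ :=
      f ∘ₗ (act g) ∘ₗ (Finsupp.lmapDomain ℝ ℝ (Prod.map e.φ e.ψ))
    have hLbv : ∀ (h : H) (i : Fin 2), L (bv h i) = f (bv (g * φ h) (e.ψ i)) := by
      intro h i
      exact (congrArg (fun y => f (act g y)) (e.map_bv h i)).trans (congrArg f (act_bv g _ _))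
    have hL : ∀ x : E H (Fin 2), L x ≤ (objB H).norm x := by
      intro x
      have a1 : L x ≤ D.norm (act g (Finsupp.mapDomain (Prod.map e.φ e.ψ) x)) := hf _
      have a2 := norm_act_le D g (Finsupp.mapDomain (Prod.map e.φ e.ψ) x)
      have a3 := e.isom x
      exact (a1.trans a2).trans a3.le
    have hL1 : L (bv 1 0) = 1 := by
      rw [hLbv, map_one, mul_one, h0, hg1]
    obtain ⟨b1, b2⟩ := force L hL hL1
    refine ⟨fun h => ?_, ?_⟩
    · have := b1 h
      rw [hLbv, h0] at this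
      exact this
    · rw [← b2]
      apply Finset.sum_congr rfl
      intro h _
      rw [hLbv, h1]
  have hreindex : ∀ h : H, ∑ g ∈ S, f (bv (g * φ h) j₁) = ∑ g ∈ S, f (bv g j₁) := by
    intro h
    refine Finset.sum_nbij' (fun g => g * φ h) (fun g => g * φ h⁻¹) ?_ ?_ ?_ ?_ ?_
    · intro g hg
      exact Finset.mem_filter.2 ⟨Finset.mem_univ _, (hforce g hg).1 h⟩
    · intro g hg
      exact Finset.mem_filter.2 ⟨Finset.mem_univ _, (hforce g hg).1 h⁻¹⟩
    · intro g _; simp
    · intro g _; simp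
    · intro g _; rfl
  have c1 : ∑ g ∈ S, ∑ h : H, f (bv (g * φ h) j₁) = ((Fintype.card H : ℝ) - 2) * (S.card : ℝ) := by
    rw [Finset.sum_congr rfl (fun g hg => (hforce g hg).2), Finset.sum_const, nsmul_eq_mul]
    ring
  rw [Finset.sum_comm, Finset.sum_congr rfl (fun h _ => hreindex h), Finset.sum_const,
    Finset.card_univ, nsmul_eq_mul] at c1
  exact c1

end emb

/-- There are rational finitely presented actions `A`, `B`, `C` and embeddings `A → B`, `A → C`
which cannot be amalgamated in any finitely presented action (rational or not). -/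
theorem main :
    ∃ (A B C : FPAction) (e₁ : Emb A B) (e₂ : Emb A C),
      A.Rational ∧ B.Rational ∧ C.Rational ∧
        ¬ ∃ (D : FPAction) (f₁ : Emb B D) (f₂ : Emb C D),
          (∀ g : A.F, f₁.φ (e₁.φ g) = f₂.φ (e₂.φ g)) ∧
            (∀ i : A.I, f₁.ψ (e₁.ψ i) = f₂.ψ (e₂.ψ i)) := by
  refine ⟨objA, objB (Multiplicative (ZMod 3)), objB (Multiplicative (ZMod 2)),
    embAB _ ⟨Multiplicative.ofAdd 1, by decide⟩, embAB _ ⟨Multiplicative.ofAdd 1, by decide⟩,
    objA_rational, objB_rational, objB_rational, ?_⟩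
  rintro ⟨D, f₁, f₂, -, hψ⟩
  classical
  have : Fintype D.F := Fintype.ofFinite _
  have hψ0 : f₁.ψ (0 : Fin 2) = f₂.ψ (0 : Fin 2) := hψ (0 : Fin 2)
  have hψ1 : f₁.ψ (1 : Fin 2) = f₂.ψ (1 : Fin 2) := hψ (1 : Fin 2)
  -- the norm of the base point is one
  have hnorm : D.norm (bv 1 (f₁.ψ (0 : Fin 2))) = 1 := by
    have h1 := f₁.isom (bv 1 0 : E (Multiplicative (ZMod 3)) (Fin 2))
    have h2 := f₁.map_bv (1 : (objB (Multiplicative (ZMod 3))).F) (0 : Fin 2)
    rw [map_one] at h2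
    have h1' := (congrArg D.norm h2).symm.trans h1
    clear h1
    have h1 := h1'
    clear h1' 
    have h3 := normB (Multiplicative (ZMod 3)) ⟨Multiplicative.ofAdd 1, by decide⟩ 1 0
    simp only [one_smul, zero_smul, add_zero, abs_one, abs_zero] at h3
    rw [h1]; exact h3
  obtain ⟨f, hf, hf1⟩ := exists_functional D _ hnorm
  have k1 := averaging (Multiplicative (ZMod 3)) D f₁ f hf _ _ rfl rfl
  have k2 := averaging (Multiplicative (ZMod 2)) D f₂ f hf _ _ hψ0.symm hψ1.symm
  have c3 : Fintype.card (Multiplicative (ZMod 3)) = 3 := by decide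
  have c2 : Fintype.card (Multiplicative (ZMod 2)) = 2 := by decide
  rw [c3] at k1
  rw [c2] at k2
  have hpos : 0 < ((Finset.univ.filter
      (fun g : D.F => f (bv g (f₁.ψ (0 : Fin 2))) = 1)).card : ℝ) := by
    rw [Nat.cast_pos, Finset.card_pos]
    exact ⟨1, Finset.mem_filter.2 ⟨Finset.mem_univ _, hf1⟩⟩
  push_cast at k1 k2
  linarith

end Pool.Agent.Work.MP_66eb21_an
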